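import Pool.Agent.T9h93.CA.Main

/-!
# Varieties of solvable alternative algebras in characteristic three that are not finitely based

Over every field `F` of characteristic three there is an infinite independent system of identities
`f 0, f 1, …` in the variety of the commutative alternative algebras with `x³ = 0` that are solvable
of index three. So for every infinite set `I` of indices the variety of the commutative alternative
nil-algebras of index three, solvable of index three, with the identities `f i`, `i ∈ I`, is not
defined by any finite set of identities, and different sets `I` define different varieties.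

The algebras. Let `W` be a vector space of dimension `m`, `Λ` its exterior algebra with even and odd
parts `Λ₀`, `Λ₁`, and `τ : Λ → F` the coefficient of degree `m`. The algebra is
`W ⊕ Λ ⊕ Λ' ⊕ F` with `Λ' = Λ`. Its only products of basic elements are
`α · c = α ∧ c`, `δ · c = (δ₀ - δ₁) ∧ c` for `c ∈ W`, `α ∈ Λ`, `δ ∈ Λ'`,
`α · β = α₀ β₀ + α₀ β₁ + α₁ β₀ ∈ Λ'` and `δ · α = τ (δ₀ α₀ + δ₁ α₁) ∈ F` (and the same in the
opposite order). It is a Grassmann envelope of a commutative superalgebra of dimension six, which is
alternative only in characteristic three. The identity `f r` has degree three in one variable `x` and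
degree one in `2 r + 6` further variables; its values are twice
`τ (x₀³ ∧ c₁ ∧ ⋯ ∧ c_{2r+6})`, where `x₀` is the even part of the component of `x` in `Λ` and the
`cᵢ` are the components in `W` of the other variables. As the cube of an even element of `Λ` is a
scalar in characteristic three, `f r` is an identity of the algebra if and only if `m ≠ 2 r + 6`.
-/

set_option autoImplicit false

namespace Pool.Agent.Results.MP_a43909_al.CommutativeAlternative

open Pool.Agent.H739SJ

universe u

/-- The algebra `B` over `F` is commutative and alternative, `x³ = 0` identically, and it is solvable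
of index three. -/
structure Good (F : Type u) [Field F] (B : Type u) [NonUnitalNonAssocRing B] [Module F B] :
    Prop where
  comm : ∀ x y : B, x * y = y * x
  left_alternative : ∀ x y : B, (x * x) * y = x * (x * y)
  right_alternative : ∀ x y : B, (y * x) * x = y * (x * x)
  cube : ∀ x : B, (x * x) * x = 0
  solvable : Pool.Agent.H739SJ.derivedSeries F B 3 = ⊥

theorem good_iff (F : Type u) [Field F] (B : Type u) [NonUnitalNonAssocRing B] [Module F B] :
    Good F B ↔ Pool.Agent.T9h93.CA.Good F B :=
  ⟨fun h => ⟨h.comm, h.left_alternative, h.right_alternative, h.cube, h.solvable⟩,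
    fun h => ⟨h.comm, h.altl, h.altr, h.cube, h.solv⟩⟩

theorem result (F : Type u) [Field F] [CharP F 3] :
    ∃ f : ℕ → FreeNonUnitalNonAssocAlgebra F ℕ,
      -- the identities `f r` are independent
      (∀ r : ℕ, ∃ (B : Type u) (_ : NonUnitalNonAssocRing B) (_ : Module F B)
        (_ : IsScalarTower F B B) (_ : SMulCommClass F B B),
        Good F B ∧ ¬ Satisfies F B (f r) ∧ ∀ q, q ≠ r → Satisfies F B (f q)) ∧
      -- the varieties that they define are not finitely based
      ∀ I : Set ℕ, ∃ S : Set (FreeNonUnitalNonAssocAlgebra F ℕ),
        (∀ (B : Type u) [NonUnitalNonAssocRing B] [Module F B] [IsScalarTower F B B]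
          [SMulCommClass F B B], InVariety F S B ↔ Good F B ∧ ∀ i ∈ I, Satisfies F B (f i)) ∧
        (I.Infinite → ∀ T : Set (FreeNonUnitalNonAssocAlgebra F ℕ), T.Finite →
          ¬ ∀ (B : Type u) [NonUnitalNonAssocRing B] [Module F B] [IsScalarTower F B B]
            [SMulCommClass F B B], InVariety F S B ↔ InVariety F T B) := by
  refine ⟨Pool.Agent.T9h93.CA.sg1 F, fun r => ?_, fun I => ?_⟩
  · refine ⟨Pool.Agent.T9h93.CA.AA F r, inferInstance, inferInstance, inferInstance,
      inferInstance, ?_, Pool.Agent.T9h93.CA.AA_not F r,
      fun q hq => Pool.Agent.T9h93.CA.AA_sat F r q hq⟩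
    rw [good_iff]
    exact Pool.Agent.T9h93.CA.base_good F _ (Pool.Agent.T9h93.CA.AA_base F r)
  · refine ⟨Pool.Agent.T9h93.CA.base F ∪ Pool.Agent.T9h93.CA.sg1 F '' I, ?_,
      fun hI T hT => Pool.Agent.T9h93.CA.not_fb' F I hI T hT⟩
    intro B _ _ _ _
    rw [good_iff]
    constructor
    · intro h
      exact ⟨Pool.Agent.T9h93.CA.base_good F B (fun s hs => h s (Or.inl hs)),
        fun i hi => h _ (Or.inr ⟨i, hi, rfl⟩)⟩
    · rintro ⟨h1, h2⟩ s (hs | ⟨i, hi, rfl⟩)
      · exact Pool.Agent.T9h93.CA.good_base F B h1 s hs
      · exact h2 i hi

end Pool.Agent.Results.MP_a43909_al.CommutativeAlternative
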